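import Mathlib

/-!
# Abstract operator part for MP_dfd7ce_an

`A`, `B` are commuting isometries of a Hilbert space with `A* B = B A*`.
-/

set_option linter.unusedSectionVars false

namespace Pool.Agent.Q35.Agler

open scoped ComplexConjugate

variable {H : Type*} [NormedAddCommGroup H] [InnerProductSpace ℂ H] [CompleteSpace H]

/-- The situation: `A`, `B` commuting isometries, `A'` the adjoint of `A`, commuting with `B`. -/
structure Data (A B A' : H →L[ℂ] H) : Prop where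
  isoA : ∀ x y, inner ℂ (A x) (A y) = inner ℂ x y
  isoB : ∀ x y, inner ℂ (B x) (B y) = inner ℂ x y
  comm : ∀ x, B (A x) = A (B x)
  adj : ∀ x y, inner ℂ (A x) y = inner ℂ x (A' y)
  dcomm : ∀ x, A' (B x) = B (A' x)

namespace Data

variable {A B A' : H →L[ℂ] H} (h : Data A B A')
include h

lemma adjA (x : H) : A' (A x) = x := by
  refine ext_inner_left ℂ fun y => ?_
  rw [← h.adj, h.isoA]

lemma adj' (x y : H) : inner ℂ (A' x) y = inner ℂ x (A y) := by
  rw [← inner_conj_symm, ← h.adj, inner_conj_symm]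

lemma isoAB (x y : H) : inner ℂ (A (B x)) (B y) = inner ℂ (A x) y := by
  rw [← h.comm, h.isoB]

lemma isoBA (x y : H) : inner ℂ (B x) (A (B y)) = inner ℂ x (A y) := by
  rw [← h.comm, h.isoB]

lemma normA (x : H) : ‖A x‖ = ‖x‖ := by
  have := h.isoA x x
  rw [inner_self_eq_norm_sq_to_K, inner_self_eq_norm_sq_to_K] at this
  have h2 : ‖A x‖ ^ 2 = ‖x‖ ^ 2 := by exact_mod_cast this
  exact (sq_eq_sq₀ (norm_nonneg _) (norm_nonneg _)).mp h2

lemma normB (x : H) : ‖B x‖ = ‖x‖ := by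
  have := h.isoB x x
  rw [inner_self_eq_norm_sq_to_K, inner_self_eq_norm_sq_to_K] at this
  have h2 : ‖B x‖ ^ 2 = ‖x‖ ^ 2 := by exact_mod_cast this
  exact (sq_eq_sq₀ (norm_nonneg _) (norm_nonneg _)).mp h2

lemma normA'_le (x : H) : ‖A' x‖ ≤ ‖x‖ := by
  by_cases h0 : ‖A' x‖ = 0
  · rw [h0]; exact norm_nonneg _
  have h1 : ‖A' x‖ ^ 2 ≤ ‖A' x‖ * ‖x‖ := by
    have h2 : inner ℂ (A' x) (A' x) = inner ℂ (A (A' x)) x := by rw [h.adj]
    rw [inner_self_eq_norm_sq_to_K] at h2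
    have h3 : ‖A' x‖ ^ 2 = ‖inner ℂ (A (A' x)) x‖ := by
      rw [← h2]; simp
    rw [h3]
    refine (norm_inner_le_norm _ _).trans ?_
    rw [h.normA]
  have h4 : 0 < ‖A' x‖ := lt_of_le_of_ne (norm_nonneg _) (Ne.symm h0)
  nlinarith

end Data

/-- `P = 25 - 12 B A² + 12 B A`. -/
noncomputable def Pop (A B : H →L[ℂ] H) : H →L[ℂ] H :=
  (25 : ℂ) • ContinuousLinearMap.id ℂ H - (12 : ℂ) • (B ∘L A ∘L A) + (12 : ℂ) • (B ∘L A)

/-- `Q = 25 B A² + 12 A - 12`. -/
noncomputable def Qop (A B : H →L[ℂ] H) : H →L[ℂ] H :=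
  (25 : ℂ) • (B ∘L A ∘L A) + (12 : ℂ) • A - (12 : ℂ) • ContinuousLinearMap.id ℂ H

lemma Pop_apply (A B : H →L[ℂ] H) (x : H) :
    Pop A B x = (25 : ℂ) • x - (12 : ℂ) • B (A (A x)) + (12 : ℂ) • B (A x) := rfl

lemma Qop_apply (A B : H →L[ℂ] H) (x : H) :
    Qop A B x = (25 : ℂ) • B (A (A x)) + (12 : ℂ) • A x - (12 : ℂ) • x := rfl

/-- Invertibility of a small perturbation of a multiple of the identity. -/
lemma exists_inverse (T : H →L[ℂ] H) (c : ℂ) (hT : ‖T‖ < ‖c‖) :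
    ∃ R : H →L[ℂ] H, (∀ x, (c • ContinuousLinearMap.id ℂ H - T) (R x) = x) ∧
      ∀ x, R ((c • ContinuousLinearMap.id ℂ H - T) x) = x := by
  have hc : c ≠ 0 := by
    intro h0; rw [h0, norm_zero] at hT; exact absurd hT (not_lt.mpr (norm_nonneg _))
  have h1 : ‖c⁻¹ • T‖ < 1 := by
    rw [norm_smul, norm_inv, inv_mul_lt_iff₀ (norm_pos_iff.mpr hc), mul_one]
    exact hT
  have h2 : IsUnit (1 - c⁻¹ • T) := isUnit_one_sub_of_norm_lt_one h1
  obtain ⟨u, hu⟩ := h2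
  have e : (c • ContinuousLinearMap.id ℂ H - T) = c • (u : H →L[ℂ] H) := by
    rw [hu, smul_sub, smul_smul, mul_inv_cancel₀ hc, one_smul]
    rfl
  refine ⟨c⁻¹ • ((u⁻¹ : (H →L[ℂ] H)ˣ) : H →L[ℂ] H), fun x => ?_, fun x => ?_⟩
  · rw [e]
    have h3 : (u : H →L[ℂ] H) (((u⁻¹ : (H →L[ℂ] H)ˣ) : H →L[ℂ] H) x) = x := by
      have := congrArg (fun f : H →L[ℂ] H => f x) u.mul_inv
      exact this
    change c • (u : H →L[ℂ] H) (c⁻¹ • ((u⁻¹ : (H →L[ℂ] H)ˣ) : H →L[ℂ] H) x) = x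
    rw [map_smul, h3, smul_smul, mul_inv_cancel₀ hc, one_smul]
  · rw [e]
    have h3 : ((u⁻¹ : (H →L[ℂ] H)ˣ) : H →L[ℂ] H) ((u : H →L[ℂ] H) x) = x := by
      have := congrArg (fun f : H →L[ℂ] H => f x) u.inv_mul
      exact this
    change c⁻¹ • ((u⁻¹ : (H →L[ℂ] H)ˣ) : H →L[ℂ] H) (c • (u : H →L[ℂ] H) x) = x
    rw [map_smul, h3, smul_smul, inv_mul_cancel₀ hc, one_smul]

section main

variable {A B A' : H →L[ℂ] H} (h : Data A B A')
include h

lemma exists_Pinv : ∃ R : H →L[ℂ] H, (∀ x, Pop A B (R x) = x) ∧ ∀ x, R (Pop A B x) = x := by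
  have hA1 : ‖A‖ ≤ 1 := ContinuousLinearMap.opNorm_le_bound _ zero_le_one fun x => by
    rw [h.normA, one_mul]
  have hB1 : ‖B‖ ≤ 1 := ContinuousLinearMap.opNorm_le_bound _ zero_le_one fun x => by
    rw [h.normB, one_mul]
  have hBA : ‖B ∘L A‖ ≤ 1 := (ContinuousLinearMap.opNorm_comp_le _ _).trans
    (mul_le_one₀ hB1 (norm_nonneg _) hA1)
  have hAA : ‖A ∘L A‖ ≤ 1 := (ContinuousLinearMap.opNorm_comp_le _ _).trans
    (mul_le_one₀ hA1 (norm_nonneg _) hA1)
  have hBAA : ‖B ∘L A ∘L A‖ ≤ 1 := (ContinuousLinearMap.opNorm_comp_le _ _).trans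
    (mul_le_one₀ hB1 (norm_nonneg _) hAA)
  have h1 : ‖(12 : ℂ) • (B ∘L A ∘L A) - (12 : ℂ) • (B ∘L A)‖ < ‖(25 : ℂ)‖ := by
    refine (norm_sub_le _ _).trans_lt ?_
    rw [norm_smul, norm_smul]
    have e1 : ‖(12 : ℂ)‖ = 12 := by simp
    have e2 : ‖(25 : ℂ)‖ = 25 := by simp
    rw [e1, e2]
    linarith
  obtain ⟨R, hR1, hR2⟩ := exists_inverse _ _ h1
  have e : (25 : ℂ) • ContinuousLinearMap.id ℂ H -
      ((12 : ℂ) • (B ∘L A ∘L A) - (12 : ℂ) • (B ∘L A)) = Pop A B := by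
    rw [Pop]; abel
  rw [e] at hR1 hR2
  exact ⟨R, hR1, hR2⟩

/-- `⟪Q x, Q y⟫ = ⟪P x, P y⟫`. -/
lemma inner_QQ (x y : H) : inner ℂ (Qop A B x) (Qop A B y) = inner ℂ (Pop A B x) (Pop A B y) := by
  rw [Pop_apply, Pop_apply, Qop_apply, Qop_apply]
  simp only [h.comm, inner_add_left, inner_add_right, inner_sub_left, inner_sub_right,
    inner_smul_left, inner_smul_right, h.isoA, h.isoB, h.isoAB, h.isoBA]
  simp only [map_ofNat]
  ring

lemma Pop_A (x : H) : Pop A B (A x) = A (Pop A B x) := by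
  simp only [Pop_apply, h.comm, map_add, map_sub, map_smul]

lemma Pop_B (x : H) : Pop A B (B x) = B (Pop A B x) := by
  simp only [Pop_apply, h.comm, map_add, map_sub, map_smul]

lemma Qop_A (x : H) : Qop A B (A x) = A (Qop A B x) := by
  simp only [Qop_apply, h.comm, map_add, map_sub, map_smul]

lemma Qop_B (x : H) : Qop A B (B x) = B (Qop A B x) := by
  simp only [Qop_apply, h.comm, map_add, map_sub, map_smul]

lemma Pop_Qop (x : H) : Pop A B (Qop A B x) = Qop A B (Pop A B x) := by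
  rw [Qop_apply, Qop_apply]
  simp only [map_add, map_sub, map_smul, Pop_A h, Pop_B h]

/-- The operator defining `L`. -/
lemma E_apply (x : H) : A' (A' (Pop A B x)) =
    (25 : ℂ) • A' (A' x) - (12 : ℂ) • B x + (12 : ℂ) • B (A' x) := by
  simp only [Pop_apply, map_add, map_sub, map_smul, h.dcomm, h.adjA]

lemma E_B (x : H) : A' (A' (Pop A B (B x))) = B (A' (A' (Pop A B x))) := by
  rw [Pop_B h, h.dcomm, h.dcomm]

lemma E_A' (x : H) : A' (A' (Pop A B (A' x))) = A' (A' (A' (Pop A B x))) := by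
  rw [E_apply h, E_apply h]
  simp only [map_add, map_sub, map_smul, h.dcomm]

omit h in
lemma rr (a b : ℝ) (u v : H) :
    (inner ℂ ((a : ℂ) • u) ((b : ℂ) • v)).re = a * b * (inner ℂ u v).re := by
  rw [inner_smul_left, inner_smul_right, Complex.conj_ofReal, ← mul_assoc, ← Complex.ofReal_mul,
    Complex.re_ofReal_mul]

omit h in
lemma rsymm (u v : H) : (inner ℂ u v).re = (inner ℂ v u).re := by
  rw [← inner_conj_symm, Complex.conj_re]

lemma quad (x y : H) :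
    25 * (‖((64 : ℝ) : ℂ) • x - ((27 : ℝ) : ℂ) • B x‖ ^ 2 -
      2 * (inner ℂ (((64 : ℝ) : ℂ) • x - ((27 : ℝ) : ℂ) • B x)
        (((64 : ℝ) : ℂ) • y - ((27 : ℝ) : ℂ) • B y)).re) =
    ‖((481 : ℝ) : ℂ) • B x - ((300 : ℝ) : ℂ) • y - ((625 : ℝ) : ℂ) • B y‖ ^ 2 -
      ‖((625 : ℝ) : ℂ) • y - ((144 : ℝ) : ℂ) • x - ((300 : ℝ) : ℂ) • B x
        + ((300 : ℝ) : ℂ) • B y‖ ^ 2 := by
  have hn : ∀ u : H, ‖u‖ ^ 2 = (inner ℂ u u).re := fun u => by
    have := inner_self_eq_norm_sq (𝕜 := ℂ) u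
    exact this.symm
  simp only [hn, inner_add_left, inner_add_right, inner_sub_left, inner_sub_right, Complex.add_re,
    Complex.sub_re, rr, h.isoB]
  rw [rsymm (B x) x, rsymm y x, rsymm (B x) y, rsymm (B y) x, rsymm (B y) y]
  ring

/-- The main abstract statement. -/
theorem main (R : H →L[ℂ] H) (hR1 : ∀ x, Pop A B (R x) = x) (hR2 : ∀ x, R (Pop A B x) = x)
    (e : H) (he : A' e = 0) (heB : ∀ x, inner ℂ (B x) e = 0) (he0 : e ≠ 0)
    (K : Submodule ℂ H) (hK : ∀ g, g ∈ K ↔ ∀ f, inner ℂ (Qop A B (R f)) g = 0) :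
    ∃ L : Submodule ℂ H, IsClosed (L : Set H) ∧ L ≤ K ∧ (∀ x ∈ L, B x ∈ L) ∧
      (∀ x ∈ K ⊓ Lᗮ, A x ∈ K ⊓ Lᗮ) ∧
      (∀ g ∈ L, 2 * (inner ℂ (A g) g).re ≤ ‖g‖ ^ 2) ∧
      ∃ f ∈ L, f ≠ 0 ∧ 2 * (inner ℂ (A f) f).re = ‖f‖ ^ 2 := by
  have hRA : ∀ x, R (A x) = A (R x) := fun x => by
    conv_lhs => rw [← hR1 x, ← Pop_A h, hR2]
  have hRB : ∀ x, R (B x) = B (R x) := fun x => by
    conv_lhs => rw [← hR1 x, ← Pop_B h, hR2]
  have hRQ : ∀ x, R (Qop A B x) = Qop A B (R x) := fun x => by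
    conv_lhs => rw [← hR1 x, ← Pop_Qop h, hR2]
  set L : Submodule ℂ H := LinearMap.ker ((A' ∘L A' ∘L Pop A B : H →L[ℂ] H) : H →ₗ[ℂ] H) with hL
  have memL : ∀ g, g ∈ L ↔ A' (A' (Pop A B g)) = 0 := fun g => by
    rw [hL, LinearMap.mem_ker]; rfl
  have memLA' : ∀ g ∈ L, A' g ∈ L := fun g hg => by
    rw [memL] at hg ⊢
    rw [E_A' h, hg, map_zero]
  have hLK : L ≤ K := by
    intro g hg
    rw [hK]
    intro f
    rw [memL, E_apply h] at hg
    have h1 : inner ℂ (B (R f)) ((25 : ℂ) • A' (A' g) - (12 : ℂ) • B g + (12 : ℂ) • B (A' g)) = 0 := by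
      rw [hg, inner_zero_right]
    rw [Qop_apply]
    simp only [inner_add_right, inner_sub_right, inner_smul_right, h.isoB, ← h.adj, ← h.comm] at h1
    simp only [inner_add_left, inner_sub_left, inner_smul_left, map_ofNat]
    linear_combination h1
  refine ⟨L, ?_, hLK, ?_, ?_, ?_, ?_⟩
  · exact ContinuousLinearMap.isClosed_ker _
  · intro x hx
    rw [memL] at hx ⊢
    rw [E_B h, hx, map_zero]
  · rintro g ⟨hgK, hgL⟩
    have hgK' := (hK g).mp hgK
    refine ⟨(hK _).mpr fun f => ?_, ?_⟩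
    · have h1 : f = A (A' f) + (f - A (A' f)) := by abel
      have hu : A' (f - A (A' f)) = 0 := by rw [map_sub, h.adjA, sub_self]
      generalize f - A (A' f) = u at h1 hu
      rw [h1, map_add, map_add, inner_add_left, hRA, Qop_A h, h.isoA, hgK', zero_add, ← h.adj']
      refine hgL _ ?_
      rw [memL, E_A' h, Pop_Qop h, hR1]
      simp only [Qop_apply, map_add, map_sub, map_smul, h.dcomm, h.adjA, hu, map_zero, smul_zero,
        add_zero, sub_zero]
    · rw [SetLike.mem_coe, Submodule.mem_orthogonal]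
      intro u hu
      rw [← h.adj']
      exact hgL _ (memLA' u hu)
  · intro g hg
    have hB27 : ‖(27 : ℂ) • B‖ < ‖(64 : ℂ)‖ := by
      rw [norm_smul]
      have hB1 : ‖B‖ ≤ 1 := ContinuousLinearMap.opNorm_le_bound _ zero_le_one fun x => by
        rw [h.normB, one_mul]
      have e1 : ‖(27 : ℂ)‖ = 27 := by simp
      have e2 : ‖(64 : ℂ)‖ = 64 := by simp
      rw [e1, e2]
      linarith
    obtain ⟨S, hS1, hS2⟩ := exists_inverse _ _ hB27
    have hq : ∀ x, ((64 : ℂ) • ContinuousLinearMap.id ℂ H - (27 : ℂ) • B) x =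
      (64 : ℂ) • x - (27 : ℂ) • B x := fun x => rfl
    obtain ⟨x, hx⟩ : ∃ x, x = S g := ⟨_, rfl⟩
    have hgx : g = (64 : ℂ) • x - (27 : ℂ) • B x := by rw [← hq, hx, hS1]
    have hxL : A' (A' (Pop A B x)) = 0 := by
      rw [memL, hgx] at hg
      simp only [map_sub, map_smul, E_B h] at hg
      rw [← hq] at hg
      rw [← hS2 (A' (A' (Pop A B x))), hg, map_zero]
    rw [E_apply h] at hxL
    obtain ⟨y, hy⟩ : ∃ y, y = A' x := ⟨_, rfl⟩
    rw [← hy] at hxL
    have hgy : A' g = (64 : ℂ) • y - (27 : ℂ) • B y := by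
      rw [hgx]; simp only [map_sub, map_smul, h.dcomm, hy]
    have hz : A' y = (12 / 25 : ℂ) • (B x - B y) := by
      have h2 : (25 : ℂ) • A' y = (12 : ℂ) • (B x - B y) := by
        rw [smul_sub, ← sub_eq_zero, ← hxL]; abel
      rw [div_eq_inv_mul, mul_smul, ← h2, smul_smul, inv_mul_cancel₀ (by norm_num), one_smul]
    have hG : A' ((481 : ℂ) • B x - (300 : ℂ) • y - (625 : ℂ) • B y) =
        B ((625 : ℂ) • y - (144 : ℂ) • x - (300 : ℂ) • B x + (300 : ℂ) • B y) := by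
      simp only [map_sub, map_add, map_smul, h.dcomm, ← hy, hz]
      module
    have h3 := h.normA'_le ((481 : ℂ) • B x - (300 : ℂ) • y - (625 : ℂ) • B y)
    rw [hG, h.normB] at h3
    have h4 := quad h x y
    push_cast at h4
    rw [← hgx, ← hgy, ← h.adj] at h4
    have h5 : ‖(625 : ℂ) • y - (144 : ℂ) • x - (300 : ℂ) • B x + (300 : ℂ) • B y‖ ^ 2 ≤
        ‖(481 : ℂ) • B x - (300 : ℂ) • y - (625 : ℂ) • B y‖ ^ 2 :=
      pow_le_pow_left₀ (norm_nonneg _) h3 2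
    linarith
  · obtain ⟨n, hn⟩ : ∃ n : H, n = (25 : ℂ) • A (B e) + (12 : ℂ) • A (B (B e)) + (12 : ℂ) • e +
      (25 : ℂ) • B e := ⟨_, rfl⟩
    have hfL : R n ∈ L := by
      rw [memL, hR1, hn]
      simp only [map_add, map_smul, h.dcomm, h.adjA, he, map_zero, smul_zero, add_zero]
    have hf0 : R n ≠ 0 := by
      intro h0
      have h1 : n = 0 := by rw [← hR1 n, h0, map_zero]
      have h2 : inner ℂ n e = 0 := by rw [h1, inner_zero_left]
      rw [hn] at h2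
      simp only [inner_add_left, inner_smul_left, h.adj, he, heB, inner_zero_right, mul_zero,
        add_zero, zero_add, map_ofNat] at h2
      have h3 : inner ℂ e e = 0 := by
        have : (12 : ℂ) ≠ 0 := by norm_num
        exact (mul_eq_zero.mp h2).resolve_left this
      exact he0 (inner_self_eq_zero.mp h3)
    refine ⟨R n, hfL, hf0, ?_⟩
    have hfK := (hK _).mp (hLK hfL)
    have key : (25 : ℂ) • (A (A (R n)) - A (R n) + R n) =
        A (Qop A B (R ((25 : ℂ) • e + (12 : ℂ) • B e))) + ((12 : ℂ) • e + (25 : ℂ) • B e) := by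
      have k1 : (25 : ℂ) • (A (A n) - A n + n) =
          A (Qop A B ((25 : ℂ) • e + (12 : ℂ) • B e)) +
            Pop A B ((12 : ℂ) • e + (25 : ℂ) • B e) := by
        rw [hn]
        simp only [Qop_apply, Pop_apply, map_add, map_sub, map_smul, h.comm]
        module
      have k2 := congrArg R k1
      simp only [map_add, map_sub, map_smul, hRA, hRQ] at k2
      rw [show R (Pop A B e) = e from hR2 e, show R (Pop A B (B e)) = B e from hR2 _] at k2
      simp only [map_add, map_sub, map_smul]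
      exact k2
    obtain ⟨f, hf⟩ : ∃ f, f = R n := ⟨_, rfl⟩
    rw [← hf] at key hfK ⊢
    have k3 : inner ℂ (A f) ((25 : ℂ) • (A (A f) - A f + f)) = 0 := by
      rw [key, inner_add_right, h.isoA]
      have k4 : inner ℂ f (Qop A B (R ((25 : ℂ) • e + (12 : ℂ) • B e))) = 0 := by
        rw [← inner_conj_symm, hfK, map_zero]
      rw [k4, zero_add, h.adj]
      simp only [map_add, map_smul, h.dcomm, he, map_zero, smul_zero, add_zero, inner_zero_right]
    rw [inner_smul_right, inner_add_right, inner_sub_right, h.isoA, h.isoA] at k3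
    have k5 : inner ℂ f (A f) - inner ℂ f f + inner ℂ (A f) f = 0 := by
      have : (25 : ℂ) ≠ 0 := by norm_num
      exact (mul_eq_zero.mp k3).resolve_left this
    have k6 := congrArg Complex.re k5
    simp only [Complex.add_re, Complex.sub_re, Complex.zero_re] at k6
    rw [rsymm f (A f)] at k6
    have k7 : (inner ℂ f f).re = ‖f‖ ^ 2 := inner_self_eq_norm_sq (𝕜 := ℂ) f
    linarith

end main

end Pool.Agent.Q35.Agler
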